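import Pool.Agent.NimPass.Period

/-! Nim with a single pass: two free heaps. -/

namespace Pool.Agent.Results.MP_1b13b2_co.AdditivePeriod

open Pool.Agent.NimPass

/-- Fix the other heaps `r`. For every `b` there is exactly one `c` for which `(b, c, r; 1)` is a
P-position, it differs from `b` by at most `1 + ∑ r`, and the relation is eventually additively
periodic. -/
theorem result : ∀ (m : ℕ) (r : Fin m → ℕ),
    (∀ b, ∃! c, PPos (withTwo b c r, true)) ∧
    (∀ b c, PPos (withTwo b c r, true) →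
      b ≤ c + (1 + ∑ i, r i) ∧ c ≤ b + (1 + ∑ i, r i)) ∧
    ∃ p : ℕ, 0 < p ∧ ∃ N : ℕ, ∀ b c, N ≤ b →
      (PPos (withTwo (b + p) (c + p) r, true) ↔ PPos (withTwo b c r, true)) := by
  intro m r
  obtain ⟨h1, h2⟩ := main r
  exact ⟨fun b => h1.existsUnique b, fun b c h => ⟨h1.bound' h, h1.bound h⟩, h2⟩

end Pool.Agent.Results.MP_1b13b2_co.AdditivePeriod
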