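import Pool.Agent.NimPass.Five

/-! Nim with a single pass: all P-positions with heaps of size at most 5. -/

namespace Pool.Agent.Results.MP_1b13b2_co.HeapsAtMostFive

open Pool.Agent.NimPass

/-- For any number `n` of heaps, all of size at most 5, the position `(h; 1)` of Nim with a single
pass is a P-position if and only if the numbers of heaps of sizes 1, ..., 5 satisfy `Q5`. -/
theorem result : ∀ (n : ℕ) (h : Fin n → ℕ), (∀ i, h i ≤ 5) →
    (PPos (h, true) ↔ Q5 (cnt h 1) (cnt h 2) (cnt h 3) (cnt h 4) (cnt h 5)) :=
  fun _ h hh => five h hh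

end Pool.Agent.Results.MP_1b13b2_co.HeapsAtMostFive
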