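import Pool.Agent.NimPass.TwoBlocksCount

/-! Nim with a single pass: positions with two disjoint groups of heaps of nim-sum 1, and the
proportion of the positions that they leave out. -/

namespace Pool.Agent.Results.MP_1b13b2_co.TwoBlocks

open Pool.Agent.NimPass

/-- If there are two disjoint groups of heaps, each of nim-sum 1 (the other heaps being
arbitrary), then `(h; 1)` is a P-position if and only if the nim-sum of all heaps is 1.
Consequently, among the `2 ^ (m n)` tuples of `n` heaps of size `< 2 ^ m`, this rule fails for a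
proportion of at most `n * 2 ^ (2 m - 1 - n)`. -/
theorem result :
    (∀ (n : ℕ) (h : Fin n → ℕ) (I J : Finset (Fin n)), Disjoint I J →
      nimSumOn I h = 1 → nimSumOn J h = 1 → (PPos (h, true) ↔ nimSum h = 1)) ∧
    ∀ m n : ℕ, 1 ≤ m → 1 ≤ n →
      Set.ncard {h : Fin n → Fin (2 ^ m) |
        ¬ (PPos (fun i => (h i : ℕ), true) ↔ nimSum (fun i => (h i : ℕ)) = 1)} * 2 ^ (n + 1) ≤
      n * 2 ^ (2 * m) * 2 ^ (m * n) :=
  ⟨fun _ h I J hIJ hI hJ => two_blocks h I J hIJ hI hJ, fun m n hm hn => count_bad m n hm hn⟩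

end Pool.Agent.Results.MP_1b13b2_co.TwoBlocks
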